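import Pool.Agent.W601.RP.Stm2

/-!
# Project RP: the pairing of the finite groups (PZ)
-/

namespace Pool.Agent.W616.RP

open Pool.Agent.W601.RP

/-- PZ -/
theorem pzz : S_PZ := by
  refine ⟨?_, ?_, ?_⟩
  · intro n h hh z z'
    unfold pz
    rw [← Finset.sum_add_distrib]
    refine Finset.sum_congr rfl (fun t _ => ?_)
    have h1 : ((z + z') t).val = ((z t).val + (z' t).val) % N t := by
      rw [Pi.add_apply]
      exact ZMod.val_add _ _
    rw [h1, ← add_smul]
    have h2 := Nat.div_add_mod ((z t).val + (z' t).val) (N t)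
    conv_rhs => rw [← h2, add_smul, mul_comm, mul_smul, hh t, smul_zero, zero_add]
  · intro n h h' z
    unfold pz
    rw [← Finset.sum_add_distrib]
    refine Finset.sum_congr rfl (fun t _ => ?_)
    rw [Pi.add_apply, smul_add]
  · intro n z
    refine ⟨∑ t : Fin n, Finsupp.single (t : ℕ) (((z t).val : ℕ) : ℤ), fun h => ?_⟩
    unfold pr pz
    rw [← Finsupp.sum_finsetSum_index]
    · refine Finset.sum_congr rfl (fun t _ => ?_)
      rw [Finsupp.sum_single_index]
      · exact natCast_zsmul _ _
      · exact zero_smul _ _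
    · intro t
      exact zero_smul _ _
    · intro t a b
      exact add_smul _ _ _

end Pool.Agent.W616.RP
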